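import Pool.Agent.Work.MP_db9399_da.Parts

/-!
# DCUT: cuts of the double cover (helper19)
-/

set_option autoImplicit false

namespace Pool.Agent.Work.MP_db9399_da.helper19

open Finset Classical
open Pool.Agent.Work.MP_db9399_all (nb)

universe u

namespace DCUTAux

variable {V : Type u} [Fintype V]

theorem mem_nb (G : SimpleGraph V) (v w : V) : w ∈ nb G v ↔ G.Adj v w := by simp [nb]

theorem nb_inter (G : SimpleGraph V) (v : V) (B : Finset V) :
    nb G v ∩ B = B.filter (fun w => G.Adj v w) := by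
  ext w; simp [nb, and_comm]

/-- double counting -/
theorem dc (G : SimpleGraph V) (A B : Finset V) :
    ∑ v ∈ A, ((nb G v ∩ B).card : ℝ) = ∑ v ∈ B, ((nb G v ∩ A).card : ℝ) := by
  have h : ∀ (A B : Finset V), ∑ v ∈ A, ((nb G v ∩ B).card : ℝ) =
      ∑ v ∈ A, ∑ w ∈ B, if G.Adj v w then (1 : ℝ) else 0 := by
    intro A B
    refine sum_congr rfl (fun v _ => ?_)
    rw [nb_inter, card_filter]
    push_cast
    rfl
  rw [h, h, sum_comm]
  refine sum_congr rfl (fun v _ => sum_congr rfl (fun w _ => ?_))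
  simp only [G.adj_comm]

/-- number of ordered pairs -/
noncomputable def e (G : SimpleGraph V) (A B : Finset V) : ℝ := ∑ v ∈ A, ((nb G v ∩ B).card : ℝ)

theorem e_symm (G : SimpleGraph V) (A B : Finset V) : e G A B = e G B A := dc G A B

theorem e_nonneg (G : SimpleGraph V) (A B : Finset V) : 0 ≤ e G A B :=
  sum_nonneg (fun _ _ => by positivity)

theorem e_mono_left (G : SimpleGraph V) {A A' : Finset V} (h : A ⊆ A') (B : Finset V) :
    e G A B ≤ e G A' B := sum_le_sum_of_subset_of_nonneg h (fun _ _ _ => by positivity)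

theorem e_mono_right (G : SimpleGraph V) (A : Finset V) {B B' : Finset V} (h : B ⊆ B') :
    e G A B ≤ e G A B' := by
  rw [e_symm G A B, e_symm G A B']; exact e_mono_left G h A

theorem e_mono (G : SimpleGraph V) {A A' B B' : Finset V} (h : A ⊆ A') (h' : B ⊆ B') :
    e G A B ≤ e G A' B' := (e_mono_left G h B).trans (e_mono_right G A' h')

theorem e_left_add (G : SimpleGraph V) {A A1 A2 : Finset V} (h1 : A1 ⊆ A) (h2 : A2 ⊆ A)
    (hd : Disjoint A1 A2) (B : Finset V) : e G A1 B + e G A2 B ≤ e G A B := by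
  unfold e
  rw [← sum_union hd]
  exact sum_le_sum_of_subset_of_nonneg (union_subset h1 h2) (fun _ _ _ => by positivity)

theorem e_right_sub (G : SimpleGraph V) (A : Finset V) {B B1 B2 : Finset V}
    (h : B ⊆ B1 ∪ B2) : e G A B ≤ e G A B1 + e G A B2 := by
  unfold e
  rw [← sum_add_distrib]
  refine sum_le_sum (fun v _ => ?_)
  have h1 : nb G v ∩ B ⊆ (nb G v ∩ B1) ∪ (nb G v ∩ B2) := by
    intro w hw
    rw [mem_inter] at hw
    have := h hw.2
    simp only [mem_union, mem_inter] at this ⊢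
    tauto
  have := (card_le_card h1).trans (card_union_le _ _)
  exact_mod_cast this

theorem e_left_sub (G : SimpleGraph V) (A : Finset V) {B B1 B2 : Finset V}
    (h : B ⊆ B1 ∪ B2) : e G B A ≤ e G B1 A + e G B2 A := by
  rw [e_symm G B A, e_symm G B1 A, e_symm G B2 A]; exact e_right_sub G A h

theorem e_le_deg (G : SimpleGraph V) (d : ℕ) (hdeg : ∀ v, (nb G v).card ≤ d) (A B : Finset V) :
    e G A B ≤ d * A.card := by
  unfold e
  calc ∑ v ∈ A, ((nb G v ∩ B).card : ℝ) ≤ ∑ v ∈ A, (d : ℝ) := by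
        refine sum_le_sum (fun v _ => ?_)
        have := (card_le_card (inter_subset_left : nb G v ∩ B ⊆ nb G v)).trans (hdeg v)
        exact_mod_cast this
    _ = d * A.card := by rw [sum_const, nsmul_eq_mul]; ring

theorem cut_eq (G : SimpleGraph V) (S T : Finset V) :
    ∑ v ∈ S, ((nb G v \ T).card : ℝ) = e G S Tᶜ := by
  unfold e
  refine sum_congr rfl (fun v _ => ?_)
  have : nb G v \ T = nb G v ∩ Tᶜ := by ext; simp
  rw [this]

/-- the arithmetic -/
theorem arith (C ρ d s p1 p4 q : ℝ) (hC : 1 ≤ C) (hρ : 0 < ρ) (hd0 : 0 < d) (hs0 : 0 ≤ s)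
    (hp1 : 0 ≤ p1) (hp4 : 0 ≤ p4) (hq0 : 0 ≤ q) (hn : p1 + p4 + q ≤ C * d)
    (k1 : ρ * p1 * (p4 + q) ≤ s) (kq : ρ * q * (p1 + p4) ≤ s)
    (hiv : ρ * d ^ 2 ≤ s + d * (p1 + p4)) :
    (2 * p1 + q) * (2 * p4 + q) ≤ (6 / ρ + 2 * C / ρ ^ 2 + 2 * C ^ 2 / ρ) * s := by
  have hC0 : 0 < C := by linarith
  have hqq : q ^ 2 ≤ (2 * C / ρ ^ 2) * s + (2 * C ^ 2 / ρ) * s := by
    have h5 : 0 ≤ 2 * C ^ 2 / ρ * s := by positivity
    have h7 : 0 ≤ 2 * C / ρ ^ 2 * s := by positivity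
    rcases le_or_gt (ρ * d / 2) (p1 + p4) with hcase | hcase
    · have h1 : q ≤ C * d := by linarith
      have h2 : q ^ 2 ≤ q * (C * d) := by
        rw [pow_two]; exact mul_le_mul_of_nonneg_left h1 hq0
      have e1 : (2 * C / ρ ^ 2) * (ρ * q * (p1 + p4)) = (2 * C / ρ) * q * (p1 + p4) := by
        field_simp
      have h4 : (2 * C / ρ) * q * (ρ * d / 2) ≤ (2 * C / ρ) * q * (p1 + p4) :=
        mul_le_mul_of_nonneg_left hcase (by positivity)
      have e2 : (2 * C / ρ) * q * (ρ * d / 2) = q * (C * d) := by field_simp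
      have h6 : (2 * C / ρ ^ 2) * (ρ * q * (p1 + p4)) ≤ (2 * C / ρ ^ 2) * s :=
        mul_le_mul_of_nonneg_left kq (by positivity)
      linarith
    · have h1 : d * (p1 + p4) ≤ d * (ρ * d / 2) := mul_le_mul_of_nonneg_left hcase.le hd0.le
      have h2 : ρ * d ^ 2 / 2 ≤ s := by
        have : d * (ρ * d / 2) = ρ * d ^ 2 / 2 := by ring
        linarith
      have h3 : q ≤ C * d := by linarith
      have h4 : q ^ 2 ≤ (C * d) ^ 2 := pow_le_pow_left₀ hq0 h3 2
      have e5 : (C * d) ^ 2 = 2 * C ^ 2 / ρ * (ρ * d ^ 2 / 2) := by field_simp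
      have h6 : 2 * C ^ 2 / ρ * (ρ * d ^ 2 / 2) ≤ 2 * C ^ 2 / ρ * s :=
        mul_le_mul_of_nonneg_left h2 (by positivity)
      linarith
  have h14 : p1 * p4 ≤ s / ρ := by
    rw [le_div_iff₀ hρ]
    have : 0 ≤ ρ * p1 * q := by positivity
    have e1 : ρ * p1 * (p4 + q) = p1 * p4 * ρ + ρ * p1 * q := by ring
    linarith
  have h15 : q * (p1 + p4) ≤ s / ρ := by
    rw [le_div_iff₀ hρ]
    linarith
  have : (2 * p1 + q) * (2 * p4 + q) = 4 * (p1 * p4) + 2 * (q * (p1 + p4)) + q ^ 2 := by ring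
  rw [this]
  have h16 : (6 / ρ + 2 * C / ρ ^ 2 + 2 * C ^ 2 / ρ) * s =
      6 * (s / ρ) + ((2 * C / ρ ^ 2) * s + (2 * C ^ 2 / ρ) * s) := by ring
  rw [h16]
  linarith

/-- the inequality for the double cover -/
theorem cut2 (G : SimpleGraph V) (d : ℕ) (C ρ : ℝ) (hC : 1 ≤ C) (hρ : 0 < ρ) (hd : 1 ≤ d)
    (hn : (Fintype.card V : ℝ) ≤ C * d) (hdeg : ∀ v, (nb G v).card ≤ d)
    (hcut : ∀ S : Finset V, ρ * S.card * (univ \ S).card ≤ ∑ v ∈ S, ((nb G v \ S).card : ℝ))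
    (hbip : ∀ S : Finset V, ρ * (d : ℝ) ^ 2 ≤
        ∑ v ∈ S, ((nb G v ∩ S).card : ℝ) + ∑ v ∈ univ \ S, ((nb G v \ S).card : ℝ))
    (S T : Finset V) :
    ((S.card : ℝ) + T.card) * ((Sᶜ.card : ℝ) + Tᶜ.card) ≤
      (6 / ρ + 2 * C / ρ ^ 2 + 2 * C ^ 2 / ρ) * (e G S Tᶜ + e G T Sᶜ) := by
  have hd0 : (0 : ℝ) < d := by exact_mod_cast hd
  set s : ℝ := e G S Tᶜ + e G T Sᶜ with hs
  set P1 := S ∩ T
  set P2 := S \ T
  set P3 := T \ S
  set P4 := Sᶜ ∩ Tᶜ
  have hcut' : ∀ S : Finset V, ρ * S.card * (Sᶜ.card) ≤ e G S Sᶜ := by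
    intro S
    have := hcut S
    rw [cut_eq] at this
    have h : (univ \ S) = Sᶜ := by ext; simp
    rw [h] at this
    exact this
  have c1 : P1ᶜ ⊆ Tᶜ ∪ P3 := by
    intro w hw; simp only [P1, P3, mem_compl, mem_inter, mem_union, mem_sdiff] at hw ⊢; tauto
  have c4 : P4ᶜ ⊆ S ∪ P3 := by
    intro w hw; simp only [P4, P3, mem_compl, mem_inter, mem_union, mem_sdiff] at hw ⊢; tauto
  have cq : (P2 ∪ P3)ᶜ ⊆ P1 ∪ P4 := by
    intro w hw
    simp only [P1, P2, P3, P4, mem_compl, mem_inter, mem_union, mem_sdiff] at hw ⊢; tauto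
  have s1 : P1 ⊆ S := inter_subset_left
  have s1' : P1 ⊆ T := inter_subset_right
  have s2 : P2 ⊆ S := sdiff_subset
  have s3 : P3 ⊆ T := sdiff_subset
  have s2' : P2 ⊆ Tᶜ := by
    intro w hw; simp only [P2, mem_sdiff, mem_compl] at hw ⊢; exact hw.2
  have s3' : P3 ⊆ Sᶜ := by
    intro w hw; simp only [P3, mem_sdiff, mem_compl] at hw ⊢; exact hw.2
  have s4 : P4 ⊆ Sᶜ := inter_subset_left
  have s4' : P4 ⊆ Tᶜ := inter_subset_right
  have d12 : Disjoint P1 P2 := by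
    rw [Finset.disjoint_left]; intro w h h'
    simp only [P1, P2, mem_inter, mem_sdiff] at h h'; tauto
  have d13 : Disjoint P1 P3 := by
    rw [Finset.disjoint_left]; intro w h h'
    simp only [P1, P3, mem_inter, mem_sdiff] at h h'; tauto
  have hi : e G P1 P1ᶜ ≤ s := by
    have h1 := e_right_sub G P1 c1
    have h2 := e_mono_left G s1 Tᶜ
    have h3 := e_mono G s1' s3'
    linarith
  have hii : e G P4 P4ᶜ ≤ s := by
    have h1 := e_right_sub G P4 c4
    have h2 : e G P4 S ≤ e G S Tᶜ := by rw [e_symm]; exact e_mono_right G S s4'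
    have h3 : e G P4 P3 ≤ e G T Sᶜ := by rw [e_symm]; exact e_mono G s3 s4
    linarith
  have hiii : e G (P2 ∪ P3) (P2 ∪ P3)ᶜ ≤ s := by
    have h1 := e_right_sub G (P2 ∪ P3) cq
    have h2 := e_left_sub G P1 (subset_refl (P2 ∪ P3))
    have h3 := e_left_sub G P4 (subset_refl (P2 ∪ P3))
    have h4 := e_left_add G s1 s2 d12 Tᶜ
    have h5 := e_left_add G s1' s3 d13 Sᶜ
    have h6 : e G P2 P1 ≤ e G P1 Tᶜ := by rw [e_symm]; exact e_mono_right G P1 s2'
    have h7 : e G P3 P1 ≤ e G P1 Sᶜ := by rw [e_symm]; exact e_mono_right G P1 s3'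
    have h8 : e G P2 P4 ≤ e G P2 Tᶜ := e_mono_right G P2 s4'
    have h9 : e G P3 P4 ≤ e G P3 Sᶜ := e_mono_right G P3 s4
    linarith
  have hiv : ρ * (d : ℝ) ^ 2 ≤ s + d * ((P1.card : ℝ) + P4.card) := by
    have h0 := hbip S
    have hu : (univ \ S) = Sᶜ := by ext; simp
    rw [cut_eq, hu] at h0
    have h0' : ρ * (d : ℝ) ^ 2 ≤ e G S S + e G Sᶜ Sᶜ := h0
    have a1 : S ⊆ P1 ∪ P2 := by
      intro w hw; simp only [P1, P2, mem_inter, mem_union, mem_sdiff]; tauto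
    have a2 : Sᶜ ⊆ P3 ∪ P4 := by
      intro w hw
      simp only [P3, P4, mem_compl, mem_inter, mem_union, mem_sdiff] at hw ⊢; tauto
    have h1 := e_right_sub G S a1
    have h2 := e_right_sub G Sᶜ a2
    have h3 : e G S P1 ≤ d * P1.card := by rw [e_symm]; exact e_le_deg G d hdeg _ _
    have h4 : e G S P2 ≤ e G S Tᶜ := e_mono_right G S s2'
    have h5 : e G Sᶜ P3 ≤ e G T Sᶜ := by rw [e_symm]; exact e_mono_left G s3 _
    have h6 : e G Sᶜ P4 ≤ d * P4.card := by rw [e_symm]; exact e_le_deg G d hdeg _ _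
    have h7 : d * ((P1.card : ℝ) + P4.card) = d * P1.card + d * P4.card := by ring
    linarith
  -- cardinalities
  set p1 : ℝ := (P1.card : ℝ)
  set p4 : ℝ := (P4.card : ℝ)
  set q : ℝ := ((P2 ∪ P3).card : ℝ) with hq
  have d23 : Disjoint P2 P3 := by
    rw [Finset.disjoint_left]; intro w h h'
    simp only [P2, P3, mem_sdiff] at h h'; tauto
  have hq' : q = (P2.card : ℝ) + P3.card := by
    rw [hq, card_union_of_disjoint d23]; push_cast; rfl
  have hS : (S.card : ℝ) = p1 + P2.card := by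
    have : (S ∩ T).card + (S \ T).card = S.card := card_inter_add_card_sdiff S T
    rw [← this]; push_cast; rfl
  have hT : (T.card : ℝ) = p1 + P3.card := by
    have h1 : (T ∩ S).card + (T \ S).card = T.card := card_inter_add_card_sdiff T S
    rw [inter_comm] at h1
    rw [← h1]; push_cast; rfl
  have hSc : (Sᶜ.card : ℝ) = p4 + P3.card := by
    have h1 : (Sᶜ ∩ Tᶜ).card + (Sᶜ \ Tᶜ).card = Sᶜ.card := card_inter_add_card_sdiff _ _
    have h2 : Sᶜ \ Tᶜ = P3 := by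
      ext w; simp only [P3, mem_sdiff, mem_compl, not_not]; tauto
    rw [h2] at h1
    rw [← h1]; push_cast; rfl
  have hTc : (Tᶜ.card : ℝ) = p4 + P2.card := by
    have h1 : (Tᶜ ∩ Sᶜ).card + (Tᶜ \ Sᶜ).card = Tᶜ.card := card_inter_add_card_sdiff _ _
    have h2 : Tᶜ \ Sᶜ = P2 := by
      ext w; simp only [P2, mem_sdiff, mem_compl, not_not]; tauto
    rw [h2, inter_comm] at h1
    rw [← h1]; push_cast; rfl
  have hcompl : ∀ A : Finset V, (A.card : ℝ) + (Aᶜ.card : ℝ) = (Fintype.card V : ℝ) := by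
    intro A; exact_mod_cast card_add_card_compl A
  have hnn : p1 + p4 + q = (Fintype.card V : ℝ) := by
    rw [← hcompl S, hS, hSc, hq']; ring
  have k1 : ρ * p1 * (p4 + q) ≤ s := by
    have h1 := (hcut' P1).trans hi
    have h2 : (P1ᶜ.card : ℝ) = p4 + q := by have := hcompl P1; linarith
    rwa [h2] at h1
  have k4 : ρ * p4 * (p1 + q) ≤ s := by
    have h1 := (hcut' P4).trans hii
    have h2 : (P4ᶜ.card : ℝ) = p1 + q := by have := hcompl P4; linarith
    rwa [h2] at h1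
  have kq : ρ * q * (p1 + p4) ≤ s := by
    have h1 := (hcut' (P2 ∪ P3)).trans hiii
    have h2 : ((P2 ∪ P3)ᶜ.card : ℝ) = p1 + p4 := by have := hcompl (P2 ∪ P3); linarith
    rwa [h2] at h1
  have hp1 : 0 ≤ p1 := by positivity
  have hp4 : 0 ≤ p4 := by positivity
  have hq0 : 0 ≤ q := by positivity
  have hs0 : 0 ≤ s := add_nonneg (e_nonneg _ _ _) (e_nonneg _ _ _)
  have hlhs : ((S.card : ℝ) + T.card) * ((Sᶜ.card : ℝ) + Tᶜ.card) = (2 * p1 + q) * (2 * p4 + q) := by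
    rw [hS, hT, hSc, hTc, hq']; ring
  rw [hlhs]
  exact arith C ρ d s p1 p4 q hC hρ hd0 hs0 hp1 hp4 hq0 (by rw [hnn]; exact hn) k1 kq hiv

end DCUTAux

open DCUTAux

/-- DCUT -/
theorem stmt_DCUT : Stmt_DCUT.{u} := by
  intro C ρ hC hρ
  set K : ℝ := 6 / ρ + 2 * C / ρ ^ 2 + 2 * C ^ 2 / ρ with hK
  have hK0 : 0 < K := by positivity
  refine ⟨1 / K, 1, by positivity, by norm_num, ?_⟩
  intro V _ G d hd hn hdeg hcut hbip S T
  rw [cut_eq, cut_eq]
  have h := cut2 G d C ρ hC hρ hd hn (fun v => (hdeg v).1) hcut hbip S T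
  rw [← hK] at h
  have hcompl : ∀ A : Finset V, (A.card : ℝ) + (Aᶜ.card : ℝ) = (Fintype.card V : ℝ) := by
    intro A; exact_mod_cast card_add_card_compl A
  have h1 : 2 * (Fintype.card V : ℝ) - S.card - T.card = (Sᶜ.card : ℝ) + Tᶜ.card := by
    have := hcompl S; have := hcompl T; linarith
  rw [h1]
  have h2 : 1 / K * ((S.card : ℝ) + T.card) * ((Sᶜ.card : ℝ) + Tᶜ.card) =
    (((S.card : ℝ) + T.card) * ((Sᶜ.card : ℝ) + Tᶜ.card)) / K := by ring
  rw [h2, div_le_iff₀ hK0]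
  linarith

end Pool.Agent.Work.MP_db9399_da.helper19
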